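import Pool.Agent.Helper92.FR.GoalsB

/-! # FR (MP_481f43_lc), packet HPD: the surrogate Hessian is positive definite -/

namespace Pool.Agent.Helper51.FR

open Pool.Agent.Helper92.FR
open scoped Matrix

noncomputable section

variable {N d : ℕ}

/-- The square root of the surrogate Hessian. -/
def rt51 (C : Fin N → Fin d → ℝ) (S lam : Fin d → ℝ) : Matrix (Fin N ⊕ Fin d) (Fin d) ℝ :=
  fun j i => 1 / (1 + |aa C S lam j|) * col C S j i

theorem HH_eq51 (C : Fin N → Fin d → ℝ) (S lam : Fin d → ℝ) :
    HH C S lam = (rt51 C S lam)ᵀ * rt51 C S lam := by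
  ext i i'
  rw [Matrix.mul_apply]
  show ∑ j, (1 / (1 + |aa C S lam j|)) ^ 2 * (col C S j i * col C S j i') = _
  refine Finset.sum_congr rfl fun j _ => ?_
  show _ = (1 / (1 + |aa C S lam j|) * col C S j i) * (1 / (1 + |aa C S lam j|) * col C S j i')
  ring

theorem col_inr51 (C : Fin N → Fin d → ℝ) (S x : Fin d → ℝ) (i : Fin d) :
    ∑ i', col C S (Sum.inr i) i' * x i' = -S i * x i := by
  rw [Finset.sum_eq_single i]
  · simp [col]
  · intro j _ hj
    simp [col, hj]
  · intro h
    exact absurd (Finset.mem_univ i) h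

theorem aa_inr51 (C : Fin N → Fin d → ℝ) (S lam : Fin d → ℝ) (i : Fin d) :
    aa C S lam (Sum.inr i) = -S i * lam i := by
  unfold aa
  rw [← col_inr51 C S lam i]
  exact Finset.sum_congr rfl fun j _ => mul_comm _ _

theorem hpd : HpdStmt := by
  intro N d C S lam hS
  have hr : ∀ j, 0 < 1 / (1 + |aa C S lam j|) := fun j => by positivity
  have hSpos : ∀ i, 0 < S i := fun i => lt_of_lt_of_le one_pos (hS i)
  have hpos : (HH C S lam).PosDef := by
    have hinj : Function.Injective (rt51 C S lam).mulVec := by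
      intro x y hxy
      funext i
      have h1 := congrFun hxy (Sum.inr i)
      have h2 : ∀ z : Fin d → ℝ, (rt51 C S lam).mulVec z (Sum.inr i) =
          1 / (1 + |aa C S lam (Sum.inr i)|) * (-S i * z i) := by
        intro z
        rw [← col_inr51 C S z i, Finset.mul_sum]
        show ∑ i', rt51 C S lam (Sum.inr i) i' * z i' = _
        refine Finset.sum_congr rfl fun i' _ => ?_
        unfold rt51
        ring
      rw [h2, h2] at h1
      have h3 := mul_left_cancel₀ (hr (Sum.inr i)).ne' h1
      exact mul_left_cancel₀ (neg_ne_zero.2 (hSpos i).ne') h3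
    have h4 := Matrix.PosDef.conjTranspose_mul_self (rt51 C S lam) hinj
    rw [Matrix.conjTranspose_eq_transpose_of_trivial] at h4
    rw [HH_eq51]
    exact h4
  refine ⟨hpos, ?_⟩
  rintro T ⟨h, hh, hT⟩
  refine ⟨?_, ?_⟩
  · intro i i'
    have h1 : T * HH C S lam * T.transpose = (T * (rt51 C S lam)ᵀ) * (T * (rt51 C S lam)ᵀ)ᵀ := by
      rw [HH_eq51, Matrix.transpose_mul, Matrix.transpose_transpose]
      simp only [Matrix.mul_assoc]
    have h2 := congrFun (congrFun hT i) i
    rw [h1, Matrix.mul_apply, Matrix.diagonal_apply_eq] at h2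
    simp only [Matrix.transpose_apply] at h2
    have h3 : (T * (rt51 C S lam)ᵀ) i (Sum.inr i') =
        T i i' * (1 / (1 + |aa C S lam (Sum.inr i')|) * (-S i')) := by
      rw [Matrix.mul_apply, Finset.sum_eq_single i']
      · simp [rt51, col]
      · intro j _ hj
        simp [rt51, col, hj]
      · intro h
        exact absurd (Finset.mem_univ i') h
    have h4 : (T * (rt51 C S lam)ᵀ) i (Sum.inr i') * (T * (rt51 C S lam)ᵀ) i (Sum.inr i') ≤ h i := by
      rw [← h2]
      exact Finset.single_le_sum
        (f := fun j => (T * (rt51 C S lam)ᵀ) i j * (T * (rt51 C S lam)ᵀ) i j)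
        (fun j _ => mul_self_nonneg _) (Finset.mem_univ (Sum.inr i'))
    have h5 : |(T * (rt51 C S lam)ᵀ) i (Sum.inr i')| ≤ 2 := by
      apply abs_le_of_sq_le_sq _ (by norm_num)
      have := (hh i).2
      nlinarith
    rw [h3, abs_mul, abs_mul, abs_neg, abs_of_pos (hr _), abs_of_pos (hSpos i'), aa_inr51,
      abs_mul, abs_neg, abs_of_pos (hSpos i')] at h5
    have h6 : |T i i'| * S i' ≤ 2 * (1 + S i' * |lam i'|) := by
      have h7 : |T i i'| * (1 / (1 + S i' * |lam i'|) * S i') =
          |T i i'| * S i' / (1 + S i' * |lam i'|) := by ring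
      rw [h7, div_le_iff₀ (by have := hSpos i'; positivity)] at h5
      exact h5
    have h8 := abs_nonneg (lam i')
    have h9 := abs_nonneg (T i i')
    have h10 := hS i'
    by_contra hc
    push Not at hc
    have h11 : 2 * (1 + |lam i'|) * S i' < |T i i'| * S i' :=
      mul_lt_mul_of_pos_right hc (hSpos i')
    nlinarith
  · intro h0
    have h1 := congrArg Matrix.det hT
    rw [Matrix.det_mul, Matrix.det_mul, h0, zero_mul, zero_mul, Matrix.det_diagonal] at h1
    have h2 : 0 < ∏ i, h i := Finset.prod_pos fun i _ => by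
      have := (hh i).1
      linarith
    linarith

end

end Pool.Agent.Helper51.FR
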