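import Pool.Agent.Helper55.FR.GoalsB

/-!
# FR-ODD
-/

set_option autoImplicit false

namespace Pool.Agent.Helper51.FR

open Finset Pool.Agent.Helper55.FR

theorem odd (hG : GirStmt) : OddStmt := by
  intro V _ _ G _ h g hreg hh hhg hexp hgir C hC hone
  have heven : Even (Fintype.card V) := by
    have h1 := G.sum_degrees_eq_twice_card_edges
    have h2 : ∑ v, G.degree v = Fintype.card V * 3 := by
      rw [sum_congr rfl fun v _ => hreg v, sum_const, card_univ, smul_eq_mul]
    rw [h2] at h1
    rw [Nat.even_iff]
    omega
  have key : ∀ S : Finset V, Odd S.card → 2 * S.card ≤ Fintype.card V →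
      ((S ×ˢ Sᶜ).filter fun p => G.Adj p.1 p.2).card = 1 → False := by
    intro S hS h2 h1
    have hne : S.Nonempty := by
      rw [nonempty_iff_ne_empty]
      rintro rfl
      simp at hS
    have hdeg : ∀ x ∈ S, 2 ≤ (S.filter fun y => G.Adj x y).card := by
      intro x hx
      have h3 : G.degree x = 3 := hreg x
      have h4 : G.degree x = (S.filter fun y => G.Adj x y).card +
          (Sᶜ.filter fun y => G.Adj x y).card := by
        rw [← SimpleGraph.card_neighborFinset_eq_degree, ← card_union_of_disjoint]
        · congr 1
          ext y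
          simp only [SimpleGraph.mem_neighborFinset, mem_union, mem_filter, mem_compl]
          tauto
        · rw [disjoint_left]
          intro y h5 h6
          simp only [mem_filter, mem_compl] at h5 h6
          exact h6.1 h5.1
      have h5 : (Sᶜ.filter fun y => G.Adj x y).card ≤ 1 := by
        rw [← h1]
        apply card_le_card_of_injOn (fun y => (x, y))
        · intro y hy
          rw [mem_coe, mem_filter] at hy
          rw [mem_coe, mem_filter, mem_product]
          exact ⟨⟨hx, hy.1⟩, hy.2⟩
        · intro y _ z _ hyz
          exact (Prod.mk.inj hyz).2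
      omega
    have h3 : g ≤ S.card := hG V G g hgir S hne hdeg
    have h4 := hexp S h2
    rw [h1] at h4
    have h5 : h * g ≤ h * S.card := mul_le_mul_of_nonneg_left (by exact_mod_cast h3) hh.le
    push_cast at h4
    linarith
  have hcc : Cᶜ.card = Fintype.card V - C.card := card_compl C
  have hle : C.card ≤ Fintype.card V := card_le_univ C
  rcases le_total (2 * C.card) (Fintype.card V) with h1 | h1
  · exact key C hC h1 hone
  · refine key Cᶜ ?_ (by omega) ?_
    · rw [Nat.odd_iff] at hC ⊢
      rw [Nat.even_iff] at heven
      omega
    · rw [← hone]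
      apply card_nbij' (fun p => (p.2, p.1)) (fun p => (p.2, p.1))
      · intro p hp
        simp only [coe_filter, mem_product, mem_compl, Set.mem_setOf_eq, not_not] at hp ⊢
        exact ⟨⟨hp.1.2, hp.1.1⟩, hp.2.symm⟩
      · intro p hp
        simp only [coe_filter, mem_product, mem_compl, Set.mem_setOf_eq, not_not] at hp ⊢
        exact ⟨⟨hp.1.2, hp.1.1⟩, hp.2.symm⟩
      · intro p _
        rfl
      · intro p _
        rfl

end Pool.Agent.Helper51.FR
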