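import Pool.Agent.Helper55.FR.GoalsA

/-!
# FR-SKF
-/

set_option autoImplicit false

namespace Pool.Agent.Helper51.FR

open Finset Pool.Agent.Helper55.FR

theorem two_dF {V : Type} [Fintype V] [DecidableEq V] (n : Equiv.Perm V) (K : Finset V) :
    2 * dF n K = (univ.filter fun x => ¬ (x ∈ K ↔ n x ∈ K)).card := by
  have h1 : (univ.filter fun x => n x ∈ K).card = K.card := by
    rw [← Finset.card_map n.toEmbedding]
    congr 1
    ext y
    simp only [mem_map, mem_filter, mem_univ, true_and, Equiv.coe_toEmbedding]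
    constructor
    · rintro ⟨x, hx, rfl⟩
      exact hx
    · intro hy
      exact ⟨n.symm y, by simpa using hy, by simp⟩
  have h2 : (K.filter fun x => n x ∈ K).card + (K.filter fun x => n x ∉ K).card = K.card :=
    card_filter_add_card_filter_not _
  have h3 : (K.filter fun x => n x ∈ K).card +
      ((univ.filter fun x => n x ∈ K).filter fun x => x ∉ K).card =
      (univ.filter fun x => n x ∈ K).card := by
    have h4 := card_filter_add_card_filter_not (s := univ.filter fun x => n x ∈ K) (fun x => x ∈ K)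
    have h5 : ((univ.filter fun x => n x ∈ K).filter fun x => x ∈ K) =
        K.filter fun x => n x ∈ K := by
      ext x
      simp only [mem_filter, mem_univ, true_and]
      tauto
    rw [h5] at h4
    exact h4
  have h6 : (univ.filter fun x => ¬ (x ∈ K ↔ n x ∈ K)) =
      (K.filter fun x => n x ∉ K) ∪ ((univ.filter fun x => n x ∈ K).filter fun x => x ∉ K) := by
    ext x
    simp only [mem_filter, mem_univ, true_and, mem_union]
    tauto
  have h7 : Disjoint (K.filter fun x => n x ∉ K)
      ((univ.filter fun x => n x ∈ K).filter fun x => x ∉ K) := by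
    rw [disjoint_left]
    intro x h8 h9
    simp only [mem_filter, mem_univ, true_and] at h8 h9
    exact h9.2 h8.1
  rw [h6, card_union_of_disjoint h7]
  unfold dF
  omega

theorem skf : SkfStmt := by
  intro V _ _ n m B g T I Q f hp hf
  have hlab : ∀ K ∈ Q, ∀ x, x ∈ K → isK (f x) := fun K hK x hx => (hf.fK x).2 ⟨K, hK, hx⟩
  have key : ∀ K ∈ Q, ∀ x, ¬ (x ∈ K ↔ n x ∈ K) →
      (x ∈ K ∧ n x ∈ T) ∨ (x ∈ T ∧ n x ∈ K) := by
    intro K hK x hx
    by_cases h1 : x ∈ K
    · left
      refine ⟨h1, ?_⟩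
      rcases (hp.cK K hK x h1).1 with h2 | h2
      · exact absurd ⟨fun _ => h2, fun _ => h1⟩ hx
      · exact h2
    · right
      have h2 : n x ∈ K := by
        by_contra h3
        exact hx ⟨fun h => absurd h h1, fun h => absurd h h3⟩
      refine ⟨?_, h2⟩
      rcases (hp.cK K hK (n x) h2).2.1 with h3 | h3
      · rw [Equiv.symm_apply_apply] at h3
        exact absurd h3 h1
      · rwa [Equiv.symm_apply_apply] at h3
  have hT : ∀ K ∈ Q, ∀ x, x ∈ T → x ∈ K → False := by
    intro K hK x h1 h2
    exact disjoint_left.1 (hp.tK K hK) h1 h2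
  have huniq : ∀ K ∈ Q, ∀ K' ∈ Q, ∀ x, x ∈ K → x ∈ K' → K = K' := by
    intro K hK K' hK' x h1 h2
    by_contra hne
    exact disjoint_left.1 (hp.kK K hK K' hK' hne) h1 h2
  have h1 : ∑ K ∈ Q, 2 * dF n K =
      (Q.biUnion fun K => univ.filter fun x => ¬ (x ∈ K ↔ n x ∈ K)).card := by
    rw [card_biUnion]
    · exact sum_congr rfl fun K _ => two_dF n K
    · intro K hK K' hK' hne
      rw [Function.onFun, disjoint_left]
      intro x h2 h3
      simp only [mem_filter, mem_univ, true_and] at h2 h3
      rcases key K hK x h2 with ⟨a1, a2⟩ | ⟨a1, a2⟩ <;>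
        rcases key K' hK' x h3 with ⟨b1, b2⟩ | ⟨b1, b2⟩
      · exact hne (huniq K hK K' hK' x a1 b1)
      · exact hT K hK x b1 a1
      · exact hT K' hK' x a1 b1
      · exact hne (huniq K hK K' hK' (n x) a2 b2)
  rw [h1]
  apply card_le_card
  intro x hx
  rw [mem_biUnion] at hx
  obtain ⟨K, hK, hx⟩ := hx
  simp only [mem_filter, mem_univ, true_and] at hx
  unfold Spc
  rw [mem_filter]
  refine ⟨mem_univ _, ?_⟩
  rcases key K hK x hx with ⟨a1, a2⟩ | ⟨a1, a2⟩
  · have b1 := hlab K hK x a1
    have b2 := (hf.fT (n x)).2 a2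
    rw [b2]
    rcases b1 with b1 | b1 <;> rw [b1] <;> decide
  · have b1 := hlab K hK (n x) a2
    have b2 := (hf.fT x).2 a1
    rw [b2]
    rcases b1 with b1 | b1 <;> rw [b1] <;> decide

end Pool.Agent.Helper51.FR
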